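import Mathlib

set_option autoImplicit false

namespace Pool.Agent.Results.MP_3cd2af_an.Counter
open Set unitInterval Classical
open scoped ENNReal NNReal

/-- the least number of members of the join of `𝒰, T⁻¹ 𝒰, …, T^{-(n-1)} 𝒰` needed to cover the space -/
noncomputable def N {X : Type} (T : X → X) (𝒰 : Set (Set X)) (n : ℕ) : ℕ∞ :=
  ⨅ (s : Finset (Fin n → Set X))
    (_ : (∀ w ∈ s, ∀ k, w k ∈ 𝒰) ∧ ∀ x, ∃ w ∈ s, ∀ k : Fin n, T^[k] x ∈ w k), (s.card : ℕ∞)

/-- Adler-Konheim-McAndrew entropy -/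
noncomputable def h {X : Type} [TopologicalSpace X] (T : X → X) : EReal :=
  ⨆ (𝒰 : Set (Set X)) (_ : (∀ U ∈ 𝒰, IsOpen U) ∧ ⋃₀ 𝒰 = univ),
    ExpGrowth.expGrowthSup fun n => (N T 𝒰 n : ℝ≥0∞)

/-- the logistic map -/
def f (a : Icc (1 : ℝ) 4) (x : I) : I :=
  ⟨a * x * (1 - x), by
    have := x.2.1; have := x.2.2; have := a.2.1; have := a.2.2
    constructor
    · have : 0 ≤ 1 - (x : ℝ) := by linarith
      positivity
    · nlinarith [sq_nonneg (2 * (x : ℝ) - 1), mul_nonneg x.2.1 (sub_nonneg.2 x.2.2)]⟩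

noncomputable def a1 : Icc (1 : ℝ) 4 := ⟨4, by norm_num⟩
noncomputable def a2 : Icc (1 : ℝ) 4 := ⟨25 / 8, by norm_num⟩
noncomputable def a3 : Icc (1 : ℝ) 4 := ⟨16 / 15, by norm_num⟩

noncomputable def F : I → I := f a1 ∘ f a2 ∘ f a3
noncomputable def G : I → I := f a1 ∘ f a3 ∘ f a2

lemma f_cont (a : Icc (1 : ℝ) 4) : Continuous (f a) := by
  unfold f; fun_prop

def J (b : Bool) : Set I := {x | if b then (3 / 4 : ℝ) ≤ x else (x : ℝ) ≤ 1 / 4}

lemma onto (b : Bool) (y : I) : ∃ x ∈ J b, F x = y := by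
  have hc : Continuous F := (f_cont a1).comp ((f_cont a2).comp (f_cont a3))
  let p : I := ⟨1 / 4, by norm_num⟩
  let q : I := ⟨3 / 4, by norm_num⟩
  have e0 : F 0 = 0 := Subtype.ext (by simp [F, f])
  have e1 : F 1 = 0 := Subtype.ext (by simp [F, f])
  have e2 : F p = 1 := Subtype.ext (by simp only [F, f, a1, a2, a3, p, Function.comp]; norm_num)
  have e3 : F q = 1 := Subtype.ext (by simp only [F, f, a1, a2, a3, q, Function.comp]; norm_num)
  cases b
  · obtain ⟨x, hx, h⟩ := intermediate_value_Icc (show (0 : I) ≤ p from p.2.1) hc.continuousOn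
      (show y ∈ Icc (F 0) (F p) by rw [e0, e2]; exact ⟨y.2.1, y.2.2⟩)
    exact ⟨x, hx.2, h⟩
  · obtain ⟨x, hx, h⟩ := intermediate_value_Icc' (show q ≤ 1 from q.2.2) hc.continuousOn
      (show y ∈ Icc (F 1) (F q) by rw [e1, e3]; exact ⟨y.2.1, y.2.2⟩)
    exact ⟨x, hx.1, h⟩

lemma itin (n : ℕ) (w : ℕ → Bool) : ∃ x, ∀ k < n, F^[k] x ∈ J (w k) := by
  induction n generalizing w with
  | zero => exact ⟨0, by simp⟩
  | succ n ih =>
    obtain ⟨y, hy⟩ := ih fun k => w (k + 1)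
    obtain ⟨x, hx, rfl⟩ := onto (w 0) y
    refine ⟨x, fun k hk => ?_⟩
    cases k with
    | zero => exact hx
    | succ k => exact hy k (by omega)

lemma lower : ENNReal.log 2 ≤ h F := by
  let A : Set I := {x | (x : ℝ) < 3 / 4}
  let B : Set I := {x | (1 / 4 : ℝ) < x}
  have hU : (∀ U ∈ ({A, B} : Set (Set I)), IsOpen U) ∧ ⋃₀ {A, B} = univ := by
    constructor
    · rintro U (rfl | rfl)
      · exact isOpen_lt continuous_subtype_val continuous_const
      · exact isOpen_lt continuous_const continuous_subtype_val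
    · ext x
      simp only [sUnion_insert, sUnion_singleton, mem_union, A, B, mem_setOf_eq, mem_univ, iff_true]
      by_contra hx
      push Not at hx
      linarith [hx.1, hx.2]
  refine le_trans ?_ (le_iSup₂_of_le {A, B} hU le_rfl)
  rw [← ExpGrowth.expGrowthSup_pow]
  refine ExpGrowth.expGrowthSup_monotone fun n => ?_
  have : ((2 ^ n : ℕ) : ℕ∞) ≤ N F {A, B} n := by
    refine le_iInf₂ fun s hs => ?_
    choose x hx using fun w : Fin n → Bool => itin n fun k => if h : k < n then w ⟨k, h⟩ else true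
    choose v hv hv' using fun w => hs.2 (x w)
    have := Finset.card_le_card_of_injOn (s := Finset.univ) (t := s) v (fun w _ => hv w) (by
      intro w _ w' _ e
      funext k
      have h1 := hx w k k.2
      have h2 := hx w' k k.2
      have h3 := hv' w k
      have h4 := hv' w' k
      rw [← e] at h4
      simp only [k.2, dif_pos, Fin.eta] at h1 h2
      by_contra hne
      rcases hs.1 _ (hv w) k with h5 | h5 <;> rw [h5] at h3 h4 <;>
        cases hw : w k <;> cases hw' : w' k <;> simp_all [J, A, B] <;> linarith)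
    simp only [Finset.card_univ, Fintype.card_fun, Fintype.card_bool, Fintype.card_fin] at this
    exact_mod_cast this
  have := ENat.toENNReal_mono this
  simpa using this

noncomputable def pc (x : I) : ℕ :=
  if (x : ℝ) < 1 / 5 then 0 else if (x : ℝ) < 1 / 2 then 1 else if (x : ℝ) ≤ 4 / 5 then 2 else 3

lemma pc_le (x : I) : pc x ≤ 3 := by unfold pc; split_ifs <;> omega

lemma G_le (x : I) : (G x : ℝ) ≤ 4 / 5 := by
  have h : ((f a3 (f a2 x) : I) : ℝ) ≤ 4 / 15 := by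
    simp only [f, a3]; nlinarith [sq_nonneg (2 * (a2.1 * x * (1 - x)) - 1)]
  have : (G x : ℝ) = 4 * (f a3 (f a2 x) : I) * (1 - (f a3 (f a2 x) : I)) := rfl
  rw [this]; nlinarith

lemma pc_G (x : I) : pc (G x) ≤ 2 := by
  have := G_le x
  unfold pc; split_ifs <;> first | omega | linarith

lemma u_ge (x : I) (h : pc x = 1 ∨ pc x = 2) : (1 / 2 : ℝ) ≤ (f a2 x : I) := by
  have : (1 / 5 : ℝ) ≤ x ∧ (x : ℝ) ≤ 4 / 5 := by
    unfold pc at h; split_ifs at h <;> first | (simp at h; done) | (constructor <;> linarith)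
  simp only [f, a2]; nlinarith [mul_nonneg (sub_nonneg.2 this.1) (sub_nonneg.2 this.2)]

lemma u_le (x : I) (h : pc x = 0 ∨ pc x = 3) : ((f a2 x : I) : ℝ) ≤ 1 / 2 := by
  have : (x : ℝ) < 1 / 5 ∨ (4 / 5 : ℝ) < x := by
    unfold pc at h; split_ifs at h <;> first | (simp at h; done) | (left; linarith) | (right; linarith)
  simp only [f, a2]
  rcases this with h | h <;> nlinarith

lemma pc_two (x : I) (h : pc x = 1 ∨ pc x = 2) : pc (G x) = 2 := by
  have h1 := u_ge x h
  have h2 : ((f a2 x : I) : ℝ) ≤ 25 / 32 := by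
    simp only [f, a2]; nlinarith [sq_nonneg (2 * (x : ℝ) - 1)]
  have h3 : (1 / 6 : ℝ) ≤ (f a3 (f a2 x) : I) := by
    have : ((f a3 (f a2 x) : I) : ℝ) = 16 / 15 * (f a2 x : I) * (1 - (f a2 x : I)) := rfl
    rw [this]; nlinarith
  have h4 : ((f a3 (f a2 x) : I) : ℝ) ≤ 4 / 15 := by
    simp only [f, a3]; nlinarith [sq_nonneg (2 * (a2.1 * x * (1 - x)) - 1)]
  have h5 : (1 / 2 : ℝ) ≤ G x := by
    have : (G x : ℝ) = 4 * (f a3 (f a2 x) : I) * (1 - (f a3 (f a2 x) : I)) := rfl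
    rw [this]; nlinarith
  have := G_le x
  unfold pc; split_ifs <;> first | omega | linarith

lemma step (x y : I) (h : pc x = pc y) : ∃ m : ℝ, 0 ≤ m ∧ (G y : ℝ) - G x = (-1) ^ pc x * m * (y - x) := by
  have h4 : ∀ x, ((f a3 (f a2 x) : I) : ℝ) ≤ 4 / 15 := fun x => by
    simp only [f, a3]; nlinarith [sq_nonneg (2 * (a2.1 * x * (1 - x)) - 1)]
  have hv : 0 ≤ 1 - ((f a3 (f a2 x) : I) : ℝ) - (f a3 (f a2 y) : I) := by linarith [h4 x, h4 y]
  have hs : 0 ≤ (-1) ^ pc x * ((1 - (x : ℝ) - y) * (1 - ((f a2 x : I) : ℝ) - (f a2 y : I))) := by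
    have hx : (pc x ≤ 1 → (x : ℝ) < 1 / 2) ∧ (2 ≤ pc x → (1 / 2 : ℝ) ≤ x) := by
      unfold pc; split_ifs <;> constructor <;> intro _ <;> first | omega | linarith
    have hy : (pc y ≤ 1 → (y : ℝ) < 1 / 2) ∧ (2 ≤ pc y → (1 / 2 : ℝ) ≤ y) := by
      unfold pc; split_ifs <;> constructor <;> intro _ <;> first | omega | linarith
    have := pc_le x
    rcases (show pc x = 0 ∨ pc x = 1 ∨ pc x = 2 ∨ pc x = 3 by omega) with e | e | e | e
    · have := u_le x (by omega); have := u_le y (by omega)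
      have := hx.1 (by omega); have := hy.1 (by omega)
      rw [e, pow_zero, one_mul]; exact mul_nonneg (by linarith) (by linarith)
    · have := u_ge x (by omega); have := u_ge y (by omega)
      have := hx.1 (by omega); have := hy.1 (by omega)
      rw [e, pow_one, neg_one_mul, neg_nonneg]; exact mul_nonpos_of_nonneg_of_nonpos (by linarith) (by linarith)
    · have := u_ge x (by omega); have := u_ge y (by omega)
      have := hx.2 (by omega); have := hy.2 (by omega)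
      rw [e, neg_one_sq, one_mul]; exact mul_nonneg_of_nonpos_of_nonpos (by linarith) (by linarith)
    · have := u_le x (by omega); have := u_le y (by omega)
      have := hx.2 (by omega); have := hy.2 (by omega)
      rw [e, show (-1 : ℝ) ^ 3 = -1 by norm_num, neg_one_mul, neg_nonneg]
      exact mul_nonpos_of_nonpos_of_nonneg (by linarith) (by linarith)
  refine ⟨_, mul_nonneg (mul_nonneg (show (0 : ℝ) ≤ 40 / 3 by norm_num) hv) hs, ?_⟩
  have e : ((-1 : ℝ) ^ pc x) * (-1) ^ pc x = 1 := by rw [← mul_pow]; norm_num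
  have e1 : ∀ x, (G x : ℝ) = 4 * (f a3 (f a2 x) : I) * (1 - (f a3 (f a2 x) : I)) := fun _ => rfl
  have e2 : ∀ x : I, ((f a3 x : I) : ℝ) = 16 / 15 * x * (1 - x) := fun _ => rfl
  have e3 : ∀ x : I, ((f a2 x : I) : ℝ) = 25 / 8 * x * (1 - x) := fun _ => rfl
  have d3 : ((f a2 y : I) : ℝ) - (f a2 x : I) = 25 / 8 * (y - x) * (1 - x - y) := by
    rw [e3, e3]; ring
  have d2 : ((f a3 (f a2 y) : I) : ℝ) - (f a3 (f a2 x) : I) = 16 / 15 * (((f a2 y : I) : ℝ) - (f a2 x : I)) *
      (1 - ((f a2 x : I) : ℝ) - (f a2 y : I)) := by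
    rw [e2, e2 (f a2 x)]; ring
  have d1 : (G y : ℝ) - G x = 4 * (((f a3 (f a2 y) : I) : ℝ) - (f a3 (f a2 x) : I)) *
      (1 - ((f a3 (f a2 x) : I) : ℝ) - (f a3 (f a2 y) : I)) := by
    rw [e1, e1]; ring
  rw [d1, d2, d3]
  linear_combination (-(40 / 3) * (1 - ((f a3 (f a2 x) : I) : ℝ) - (f a3 (f a2 y) : I)) *
    ((1 - (x : ℝ) - y) * (1 - ((f a2 x : I) : ℝ) - (f a2 y : I))) * (y - x)) * e

noncomputable def sg (x : I) : ℕ → ℝ
  | 0 => 1
  | k + 1 => sg x k * (-1) ^ pc (G^[k] x)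

lemma sg_sq (x : I) (k : ℕ) : sg x k * sg x k = 1 := by
  induction k with
  | zero => simp [sg]
  | succ k ih =>
    have e : ((-1 : ℝ) ^ pc (G^[k] x)) * (-1) ^ pc (G^[k] x) = 1 := by rw [← mul_pow]; norm_num
    simp only [sg]
    linear_combination ((-1 : ℝ) ^ pc (G^[k] x) * (-1) ^ pc (G^[k] x)) * ih + e

lemma same (x y : I) (n : ℕ) (h : ∀ k < n, pc (G^[k] x) = pc (G^[k] y)) :
    sg x n = sg y n ∧ ∃ m : ℝ, 0 ≤ m ∧ (G^[n] y : ℝ) - G^[n] x = sg x n * m * (y - x) := by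
  induction n with
  | zero => exact ⟨rfl, 1, zero_le_one, by simp [sg]⟩
  | succ n ih =>
    obtain ⟨h1, m, hm, h2⟩ := ih fun k hk => h k (by omega)
    obtain ⟨m', hm', h3⟩ := step _ _ (h n (by omega))
    refine ⟨by simp only [sg, h1, h n (by omega)], m * m', mul_nonneg hm hm', ?_⟩
    rw [Function.iterate_succ_apply', Function.iterate_succ_apply', h3, h2]
    simp only [sg]; ring

lemma stay (x : I) (k j : ℕ) (h : 0 < pc (G^[k + 1] x)) : pc (G^[k + 1 + (j + 1)] x) = 2 := by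
  induction j with
  | zero =>
    rw [Function.iterate_succ_apply']
    have := pc_G (G^[k] x)
    rw [← Function.iterate_succ_apply' G] at this
    exact pc_two _ (by simp only [Nat.succ_eq_add_one] at this; omega)
  | succ j ih => rw [← add_assoc, Function.iterate_succ_apply']; exact pc_two _ (Or.inr ih)

lemma comp (x y : I) : (∀ k, pc (G^[k + 1] x) ≤ pc (G^[k + 1] y)) ∨
    ∀ k, pc (G^[k + 1] y) ≤ pc (G^[k + 1] x) := by
  by_contra hc
  push Not at hc
  obtain ⟨⟨k, hk⟩, l, hl⟩ := hc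
  have b : ∀ z j, pc (G^[j + 1] z) ≤ 2 := fun z j => by
    rw [Function.iterate_succ_apply']; exact pc_G _
  rcases lt_trichotomy k l with e | e | e
  · have := stay x k (l - k - 1) (by omega)
    rw [show k + 1 + (l - k - 1 + 1) = l + 1 by omega] at this
    have := b y l
    omega
  · subst e; omega
  · have := stay y l (k - l - 1) (by omega)
    rw [show l + 1 + (k - l - 1 + 1) = k + 1 by omega] at this
    have := b x k
    omega

noncomputable def S (n : ℕ) (x : I) : ℝ := ∑ k ∈ Finset.range n, sg x k * G^[k] x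

noncomputable def code (δ : ℝ) (n : ℕ) (x : I) : ℕ × ℕ × ℤ :=
  (pc x, ∑ k ∈ Finset.range n, pc (G^[k + 1] x), ⌊S n x / δ⌋)

lemma close (δ : ℝ) (hδ : 0 < δ) (n : ℕ) (x y : I) (h : code δ n x = code δ n y) (k : ℕ) (hk : k < n) :
    dist (G^[k] y) (G^[k] x) < δ := by
  simp only [code, Prod.mk.injEq] at h
  obtain ⟨h1, h2, h3⟩ := h
  have e : ∀ j < n, pc (G^[j] x) = pc (G^[j] y) := by
    intro j hj
    cases j with
    | zero => exact h1
    | succ j =>
      rcases comp x y with c | c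
      · exact (Finset.sum_eq_sum_iff_of_le fun i _ => c i).1 h2 j (Finset.mem_range.2 (by omega))
      · exact ((Finset.sum_eq_sum_iff_of_le fun i _ => c i).1 h2.symm j
          (Finset.mem_range.2 (by omega))).symm
  have key := fun j (hj : j < n) => same x y j fun i hi => e i (hi.trans hj)
  choose! h4 m hm h5 using key
  have h6 : S n y - S n x = (∑ j ∈ Finset.range n, m j) * (y - x) := by
    unfold S
    rw [← Finset.sum_sub_distrib, Finset.sum_mul]
    refine Finset.sum_congr rfl fun j hj => ?_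
    have hj := Finset.mem_range.1 hj
    rw [← h4 j hj, ← mul_sub, h5 j hj]
    linear_combination (m j * (y - x)) * sg_sq x j
  have h7 : m k ≤ ∑ j ∈ Finset.range n, m j :=
    Finset.single_le_sum (fun j hj => hm j (Finset.mem_range.1 hj)) (Finset.mem_range.2 hk)
  have h8 := Int.abs_sub_lt_one_of_floor_eq_floor h3.symm
  rw [← sub_div, abs_div, abs_of_pos hδ, div_lt_one hδ, h6, abs_mul,
    abs_of_nonneg ((hm k hk).trans h7)] at h8
  have h9 : |sg x k| = 1 := by
    have := sg_sq x k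
    rw [← abs_mul_abs_self] at this
    nlinarith [abs_nonneg (sg x k)]
  rw [Subtype.dist_eq, Real.dist_eq, h5 k hk, abs_mul, abs_mul, h9, one_mul, abs_of_nonneg (hm k hk)]
  exact lt_of_le_of_lt (mul_le_mul_of_nonneg_right h7 (abs_nonneg _)) h8

lemma code_mem (δ : ℝ) (hδ : 0 < δ) (M : ℕ) (hM : 1 / δ ≤ M) (n : ℕ) (x : I) : code δ n x ∈
    Finset.range 4 ×ˢ Finset.range (2 * n + 1) ×ˢ Finset.Icc (-(n * M : ℤ)) (n * M) := by
  have h1 : |S n x| ≤ n := by
    refine (Finset.abs_sum_le_sum_abs _ _).trans ?_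
    have : ∀ k ∈ Finset.range n, |sg x k * G^[k] x| ≤ 1 := fun k _ => by
      have := sg_sq x k
      rw [← abs_mul_abs_self] at this
      have h9 : |sg x k| = 1 := by nlinarith [abs_nonneg (sg x k)]
      rw [abs_mul, h9, one_mul, abs_of_nonneg (G^[k] x).2.1]
      exact (G^[k] x).2.2
    simpa using Finset.sum_le_sum this
  have h2 : |S n x / δ| ≤ n * M := by
    rw [abs_div, abs_of_pos hδ, div_eq_mul_one_div]
    exact mul_le_mul h1 hM (by positivity) (by positivity)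
  have h3 : ∑ k ∈ Finset.range n, pc (G^[k + 1] x) ≤ ∑ k ∈ Finset.range n, 2 :=
    Finset.sum_le_sum fun k _ => by rw [Function.iterate_succ_apply']; exact pc_G _
  simp only [Finset.sum_const, Finset.card_range, smul_eq_mul] at h3
  have := pc_le x
  simp only [code, Finset.mem_product, Finset.mem_range, Finset.mem_Icc]
  refine ⟨by omega, by omega, Int.le_floor.2 ?_, ?_⟩
  · push_cast; exact (abs_le.1 h2).1
  · have := (Int.floor_le (S n x / δ)).trans (abs_le.1 h2).2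
    exact_mod_cast this

lemma upper : h G ≤ ENNReal.log (3 / 2 : ℝ≥0) := by
  refine iSup₂_le fun 𝒰 hU => ?_
  obtain ⟨δ, hδ, hL⟩ := lebesgue_number_lemma_of_metric_sUnion isCompact_univ hU.1 hU.2.ge
  choose! U hU1 hU2 using hL
  obtain ⟨M, hM⟩ := exists_nat_ge (1 / δ)
  rw [← ExpGrowth.expGrowthSup_pow]
  refine ExpGrowth.expGrowthSup_le_of_eventually_le (b := ((400 * (2 * M + 1) : ℝ≥0) : ℝ≥0∞))
    ENNReal.coe_ne_top (Filter.Eventually.of_forall fun n => ?_)
  let r : ℕ × ℕ × ℤ → I := Function.invFun (code δ n)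
  let t := Finset.range 4 ×ˢ Finset.range (2 * n + 1) ×ˢ Finset.Icc (-(n * M : ℤ)) (n * M)
  let s : Finset (Fin n → Set I) := t.image fun c k => U (G^[k] (r c))
  have h1 : N G 𝒰 n ≤ s.card := by
    refine iInf₂_le s ⟨?_, fun x => ?_⟩
    · intro w hw k
      obtain ⟨c, -, rfl⟩ := Finset.mem_image.1 hw
      exact hU1 _ trivial
    · refine ⟨_, Finset.mem_image_of_mem _ (code_mem δ hδ M hM n x), fun k => hU2 _ trivial ?_⟩
      exact close δ hδ n _ x (Function.invFun_eq ⟨x, rfl⟩) k k.2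
  have h2 : s.card ≤ 4 * ((2 * n + 1) * (2 * (n * M) + 1)) := by
    refine Finset.card_image_le.trans (le_of_eq ?_)
    simp only [t, Finset.card_product, Finset.card_range, Int.card_Icc]
    congr 2
    rw [← Nat.cast_mul]
    omega
  have h3 : ((s.card : ℕ) : ℝ≥0) ≤ 400 * (2 * M + 1) * (3 / 2) ^ n := by
    have b1 : (1 : ℝ) + n * (1 / 5) ≤ (1 + 1 / 5) ^ n := one_add_mul_le_pow (by norm_num) n
    have b2 : ((1 + 1 / 5 : ℝ) ^ n) ^ 2 ≤ (3 / 2) ^ n := by
      rw [← pow_mul, mul_comm, pow_mul]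
      exact pow_le_pow_left₀ (by norm_num) (by norm_num) n
    have b3 : ((s.card : ℕ) : ℝ) ≤ 4 * ((2 * n + 1) * (2 * (n * M) + 1)) := by exact_mod_cast h2
    have hn : (0 : ℝ) ≤ n := n.cast_nonneg
    have hm : (0 : ℝ) ≤ M := M.cast_nonneg
    have b4 : (2 * n + 1 : ℝ) ^ 2 ≤ 100 * (3 / 2) ^ n := by nlinarith
    have b5 : (2 * (n * M) + 1 : ℝ) ≤ (2 * M + 1) * (2 * n + 1) := by nlinarith [mul_nonneg hn hm]
    have : ((s.card : ℕ) : ℝ) ≤ 400 * (2 * M + 1) * (3 / 2) ^ n := by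
      nlinarith [mul_le_mul_of_nonneg_left b5 (show (0 : ℝ) ≤ 2 * n + 1 by positivity),
        mul_le_mul_of_nonneg_left b4 (show (0 : ℝ) ≤ 2 * M + 1 by positivity)]
    exact_mod_cast this
  refine (ENat.toENNReal_mono h1).trans ?_
  rw [ENat.toENNReal_coe, ← ENNReal.coe_pow, ← ENNReal.coe_mul, ← ENNReal.coe_natCast]
  exact ENNReal.coe_le_coe.2 h3

theorem result : ∃ a b c : Icc (1 : ℝ) 4, h (f a ∘ f b ∘ f c) ≠ h (f a ∘ f c ∘ f b) := by
  refine ⟨a1, a2, a3, fun e => ?_⟩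
  have h1 : ENNReal.log 2 ≤ ENNReal.log (3 / 2 : ℝ≥0) := lower.trans (le_of_eq_of_le e upper)
  rw [ENNReal.log_le_log_iff] at h1
  have h2 : (2 : ℝ≥0) ≤ 3 / 2 := by exact_mod_cast h1
  have h3 : ((2 : ℝ≥0) : ℝ) ≤ ((3 / 2 : ℝ≥0) : ℝ) := NNReal.coe_le_coe.2 h2
  norm_num at h3

end Pool.Agent.Results.MP_3cd2af_an.Counter
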